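import Pool.Agent.P.MP_4fdccb_ag.Main

namespace Pool.Agent.Results.MP_4fdccb_ag.FibredTorus

open Pool.Agent.ZPT MvPolynomial

/-- Zilber-Pink non-density for an `m`-dimensional `Z = Tor 𝔓` in the torus of dimension `m + n`
whose projection to the last `n ≥ 3` coordinates is a curve `C = Tor 𝔮`. -/
theorem result (K : Type) [Field K] [NumberField K] [Algebra K ℂ] (m n : ℕ) (hn : 3 ≤ n)
    (𝔓 : Ideal (MvPolynomial (Fin m ⊕ Fin n) K)) (hp : 𝔓.IsPrime) (hZ : (Tor 𝔓).Nonempty)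
    (𝔮 : Ideal (MvPolynomial (Fin n) K))
    (hq : ∀ f, f ∈ 𝔮 ↔ (rename Sum.inr f : MvPolynomial (Fin m ⊕ Fin n) K) ∈ 𝔓)
    (hdimZ : Algebra.trdeg K (MvPolynomial (Fin m ⊕ Fin n) K ⧸ 𝔓) = m)
    (hdimC : Algebra.trdeg K (MvPolynomial (Fin n) K ⧸ 𝔮) = 1)
    (ha : ∀ a : Fin n → ℤ, a ≠ 0 → ((fun Q : Fin n → ℂ => ∏ i, Q i ^ a i) '' Tor 𝔮).Infinite)
    (hb : ∀ u w : Fin n → ℝ, LinearIndependent ℝ ![u, w] →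
      {Q ∈ Tor 𝔮 | ∏ i, ‖Q i‖ ^ u i = 1 ∧ ∏ i, ‖Q i‖ ^ w i = 1}.Finite)
    (hc : ∀ u : Fin n → ℝ, u ≠ 0 → ∀ β : Fin m → Fin n → ℝ,
      {Q ∈ Tor 𝔮 | ∏ i, ‖Q i‖ ^ u i = 1 ∧ ∃ H : MvPolynomial (Fin m) ℂ,
        (∃ P : Fin m → ℂ, (∀ j, P j ≠ 0) ∧ eval P H = 0) ∧
        ∀ P : Fin m → ℂ, (∀ j, P j ≠ 0) → eval P H = 0 → Sum.elim P Q ∈ Tor 𝔓 ∧
          Sum.elim (fun j => ((∏ i, ‖Q i‖ ^ β j i : ℝ) : ℂ) / (starRingEnd ℂ) (P j)) Q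
            ∈ Tor 𝔓}.Finite)
    (hd : {ξ : Fin m ⊕ Fin n → ℂ | (∀ i, ξ i ≠ 0) ∧ ∀ z ∈ Tor 𝔓, ξ * z ∈ Tor 𝔓}.Finite) :
    ∃ G : MvPolynomial (Fin m ⊕ Fin n) K, (∃ z ∈ Tor 𝔓, aeval z G ≠ 0) ∧
      ∀ z ∈ Tor 𝔓, ∀ a : Fin (m + 1) → Fin m ⊕ Fin n → ℤ, LinearIndependent ℤ a →
        (∀ k, ∏ i, z i ^ a k i = 1) → aeval z G = 0 := by
  obtain rfl : 𝔮 = base 𝔓 := Ideal.ext hq
  have e : ∀ Q ∈ Tor (base 𝔓), ∀ u : Fin n → ℝ, ∏ i, ‖Q i‖ ^ u i = Real.exp (u ⬝ᵥ Lg Q) :=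
    fun Q hQ u => by
      rw [dotProduct, Real.exp_sum]
      exact Finset.prod_congr rfl fun i _ => by
        rw [Real.rpow_def_of_pos (norm_pos_iff.2 (hQ.1 i)), mul_comm, Lg]
  refine main hZ hdimZ hdimC (by simpa using hn) ha (fun u w h => (hb u w h).subset ?_)
    (fun u hu β => (hc u hu fun j => (2 : ℝ) • β j).subset ?_) hd
  · rintro Q ⟨h1, h2, h3⟩
    exact ⟨h1, by rw [e Q h1, h2, Real.exp_zero], by rw [e Q h1, h3, Real.exp_zero]⟩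
  · rintro Q ⟨h1, h2, H, h3, h4⟩
    refine ⟨h1, by rw [e Q h1, h2, Real.exp_zero], H, h3, fun P h5 h6 => ?_⟩
    simpa only [e Q h1, smul_dotProduct, smul_eq_mul] using h4 P h5 h6

end Pool.Agent.Results.MP_4fdccb_ag.FibredTorus
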