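import Pool.Agent.P.MP_4fdccb_ag.S.Top

namespace Pool.Agent.Results.MP_4fdccb_ag.Surfaces

open Pool.Agent.ZPT MvPolynomial

/-- Zilber-Pink non-density for a surface `Z = Tor 𝔓` in the torus of dimension `N`: the points
lying in an algebraic subgroup of codimension at least three are not Zariski dense. -/
theorem result (K : Type) [Field K] [NumberField K] [Algebra K ℂ] (N : ℕ)
    (𝔓 : Ideal (MvPolynomial (Fin N) K)) (hp : 𝔓.IsPrime) (hZ : (Tor 𝔓).Nonempty)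
    (hdim : Algebra.trdeg K (MvPolynomial (Fin N) K ⧸ 𝔓) = 2)
    (ha : ∀ a : Fin N → ℤ, a ≠ 0 → ((fun z : Fin N → ℂ => ∏ i, z i ^ a i) '' Tor 𝔓).Infinite)
    (hb : ∀ (k : ℕ) (M : Fin k → Fin N → ℤ) (𝔮 : Ideal (MvPolynomial (Fin k) K)), 3 ≤ k →
      LinearIndependent ℤ M → 𝔮.IsPrime → Algebra.trdeg K (MvPolynomial (Fin k) K ⧸ 𝔮) = 1 →
      (∀ z ∈ Tor 𝔓, (fun j => ∏ i, z i ^ M j i) ∈ Tor 𝔮) →
      ∀ u w : Fin k → ℝ, LinearIndependent ℝ ![u, w] →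
      {Q ∈ Tor 𝔮 | ∏ j, ‖Q j‖ ^ u j = 1 ∧ ∏ j, ‖Q j‖ ^ w j = 1}.Finite) :
    ∃ G : MvPolynomial (Fin N) K, (∃ z ∈ Tor 𝔓, aeval z G ≠ 0) ∧
      ∀ z ∈ Tor 𝔓, ∀ a : Fin 3 → Fin N → ℤ, LinearIndependent ℤ a →
        (∀ k, ∏ i, z i ^ a k i = 1) → aeval z G = 0 := by
  refine surf hZ hdim ha fun k M 𝔮 h1 h2 h3 h4 h5 u w h6 =>
    (hb k M 𝔮 h1 h2 h3 h4 h5 u w h6).subset ?_
  have e : ∀ Q ∈ Tor 𝔮, ∀ u : Fin k → ℝ, ∏ i, ‖Q i‖ ^ u i = Real.exp (u ⬝ᵥ Lg Q) :=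
    fun Q hQ u => by
      rw [dotProduct, Real.exp_sum]
      exact Finset.prod_congr rfl fun i _ => by
        rw [Real.rpow_def_of_pos (norm_pos_iff.2 (hQ.1 i)), mul_comm, Lg]
  rintro Q ⟨g1, g2, g3⟩
  exact ⟨g1, by rw [e Q g1, g2, Real.exp_zero], by rw [e Q g1, g3, Real.exp_zero]⟩

end Pool.Agent.Results.MP_4fdccb_ag.Surfaces
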